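import Pool.Agent.K4H47.RG.Fin

/-!
# MP_49c4d9_an: reductive nuclear perturbations of generalized scalar operators of order less than one

Let `N` be a bounded operator on a complex Hilbert space `H` with a bounded functional calculus `Φ` of
Hölder class `α < 1` on a compact set `K` of the plane: `Φ` is an algebra homomorphism of the smooth
functions on the plane into the operators on `H`, `Φ(z) = N` and `‖Φ(h)‖ ≤ M ‖h‖`, where `‖h‖` is the
norm of `h` in `C^α(K)` (generalized scalar operators of Colojoară and Foiaş, of order `α`). No condition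
is put on `K`, which may have interior. Let `S` be nuclear of order `s`, `s (1 + α) < 1`:
`S x = ∑ f_j(x) u_j` with `∑ (‖f_j‖ ‖u_j‖)^s < ∞`; all operators of finite rank are allowed. For every `t`
outside a set which is null for all atomless measures with bounded logarithmic potential, in particular
for almost every complex and almost every real `t`, the operator `T = N + t S` is normal as soon as it is
reductive, and more generally the restriction of `T` to a reducing subspace is normal as soon as it is
reductive.

For `α = 0` the operators `N` are those similar to normal operators. It is known that such `N` is normal if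
it is reductive; this says nothing on `N + t S`. The starting results and the earlier hand-ins
(`ReductiveCouplings`, `SchattenReductive`, `ReductiveHilbertSchmidt`, `AlgebraicModCompact`, …) need that
the self-commutator of `T` is compact, or an algebraic relation for `T` modulo the compact operators. Here
neither is given: `N` need not be a compact perturbation of a normal operator (it may be similar to one
through any invertible operator, or not be similar to one), and the compactness of the self-commutators
of the reductive restrictions has to be proved.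

Proof. 1. For almost all `t` the operators `T` and `T†` have integrated local resolvents: for every `x`,
every point `c` and every `ρ > 0` there are vectors `X a`, `W` and a number `k ≠ 0` with
`(T - c) X a = X (a + 1)`, `‖X a‖ ≤ C ρ^a`, `(c - T) W = X 0 + k x` (see `HolderScalarNuclear` of
MP_f981b0_an: smoothed resolvents `Φ(k(z - ·))` in `L^p` of the plane, `p < 2 / (1 + α)`, determinants of
the characteristic matrices, compactly supported outer functions, duality).

2. Let `V` be reducing for `T`, `T` reductive on `V`, `c` a point and `ε > 0`. Let `U` be the closure of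
the set of all `x` in `V` with `‖(T - c)^n x‖ ≤ C ε^n` for all `n`. It is invariant, so reducing. The
spectrum of `T` on `U` lies in the disc of radius `ε` about `c`: if `z` is another point of it, then 1 gives
a vector `y ≠ 0` in `U` with `‖(T† - conj z)^n y‖ ≤ C r^n`, `r < |z - c| - ε`, and such `y` is orthogonal to
the vectors which span `U`. Remove `U` from `V` and go on with the points of a net of mesh `ε / 2` in the
disc of radius `‖T‖`. What remains is zero: it has no vectors with small local spectra at the points of the
net, but it would have some at the points of its spectrum, by 1. So `V` is a finite orthogonal sum of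
reducing subspaces `U_i` such that the spectrum of `T` on `U_i` is within `ε` of `c_i`.

3. Let `P` be the projection onto `U_i`. Functions `g` which vanish near `c_i` are divisible by
`(z - c_i)^m` for all `m`, so `P Φ(g) = P (N - c_i)^m Φ(g (z - c_i)^(-m))` is, up to compact operators, at
most `‖P (T - c_i)^m‖ C (m + 1) δ^(-m)`, `δ = 4 ε`, which tends to zero; and `z - c_i` is within
`C δ^(1 - α)` of such functions. So `P (T - c_i)` is within `C δ^(1 - α)` of a compact operator. Adding the
orthogonal blocks, `T` on `V` is within `C δ^(1 - α)` of the sum of a normal operator `∑ c_i P_i`, whose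
norm is bounded, and a compact operator. With `δ → 0` the self-commutator of `T` on `V` is compact.

4. A reductive operator with compact self-commutator such that it and its adjoint have integrated local
resolvents is normal (starting library, `Pool.Agent.Y271.RN`).
-/

set_option autoImplicit false

open MeasureTheory Metric
open scoped ENNReal NNReal ContDiff

namespace Pool.Agent.Results.MP_49c4d9_an.HolderScalarReductive

/-- The algebra of the smooth (in the real sense) complex functions on the plane. -/
def Smooth : Subalgebra ℂ (ℂ → ℂ) where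
  carrier := {h | ContDiff ℝ ∞ h}
  mul_mem' := by
    intro h g hh hg
    simp only [Set.mem_setOf_eq] at *
    exact ContDiff.mul hh hg
  add_mem' := by
    intro h g hh hg
    simp only [Set.mem_setOf_eq] at *
    exact ContDiff.add hh hg
  algebraMap_mem' := by
    intro c
    simp only [Set.mem_setOf_eq]
    exact contDiff_const

section Defs

variable {H : Type} [NormedAddCommGroup H] [InnerProductSpace ℂ H]

/-- The algebra homomorphism `Φ` is a bounded functional calculus of `N` of Hölder class `α` on the
compact set `K`: `Φ(z) = N`, and `‖Φ(h)‖ ≤ M B` whenever `|h| ≤ B` on `K` and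
`|h(z) - h(w)| ≤ B |z - w|^α` on `K`. -/
structure IsHolderCalculus (K : Set ℂ) (α : ℝ) (Φ : Smooth →ₐ[ℂ] (H →L[ℂ] H)) (N : H →L[ℂ] H) :
    Prop where
  compact : IsCompact K
  identity : ∀ h : Smooth, (∀ z, (h : ℂ → ℂ) z = z) → Φ h = N
  bounded : ∃ M : ℝ, 0 ≤ M ∧ ∀ (h : Smooth) (B : ℝ), 0 ≤ B →
    (∀ z ∈ K, ‖(h : ℂ → ℂ) z‖ ≤ B) →
    (∀ z ∈ K, ∀ w ∈ K, ‖(h : ℂ → ℂ) z - (h : ℂ → ℂ) w‖ ≤ B * ‖z - w‖ ^ α) → ‖Φ h‖ ≤ M * B

/-- `S` is nuclear of order `s`: `S x = ∑ f j (x) u j` with `∑ (‖f j‖ ‖u j‖)^s < ∞`. -/
def NuclearOfOrder (s : ℝ) (S : H →L[ℂ] H) : Prop :=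
  ∃ (u : ℕ → H) (f : ℕ → (H →L[ℂ] ℂ)), Summable (fun j => (‖f j‖ * ‖u j‖) ^ s) ∧
    ∀ x, HasSum (fun j => f j x • u j) (S x)

/-- Every closed invariant subspace of `T` which is contained in `V` is invariant under the adjoint.
For `V = ⊤` this says that `T` is reductive, for a reducing subspace `V` it says that the restriction
of `T` to `V` is reductive. -/
def ReductiveOn [CompleteSpace H] (T : H →L[ℂ] H) (V : Submodule ℂ H) : Prop :=
  ∀ W : Submodule ℂ H, W ≤ V → IsClosed (W : Set H) → (∀ x ∈ W, T x ∈ W) →
    ∀ x ∈ W, ContinuousLinearMap.adjoint T x ∈ W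

/-- `T` and its adjoint commute on `V`. For `V = ⊤` this says that `T` is normal, for a reducing
subspace `V` it says that the restriction of `T` to `V` is normal. -/
def NormalOn [CompleteSpace H] (T : H →L[ℂ] H) (V : Submodule ℂ H) : Prop :=
  ∀ x ∈ V, ContinuousLinearMap.adjoint T (T x) = T (ContinuousLinearMap.adjoint T x)

/-- The subspace `V` is reducing for `T`: closed and invariant under `T` and its adjoint. -/
def Reducing [CompleteSpace H] (T : H →L[ℂ] H) (V : Submodule ℂ H) : Prop :=
  IsClosed (V : Set H) ∧ (∀ x ∈ V, T x ∈ V) ∧ ∀ x ∈ V, ContinuousLinearMap.adjoint T x ∈ V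

/-- If `T` is reductive then it is normal; and the same holds for the restriction of `T` to each
reducing subspace. -/
def Good [CompleteSpace H] (T : H →L[ℂ] H) : Prop :=
  (ReductiveOn T ⊤ → IsStarNormal T) ∧
    ∀ V : Submodule ℂ H, Reducing T V → ReductiveOn T V → NormalOn T V

end Defs

/-- The measure `m` has no atoms, and on every disc `|t| < R` it is finite and
`∫ log⁺ (1 / |t - s|) dm(t)` is bounded in `s ∈ ℂ`. -/
def BoundedPotential (m : Measure ℂ) : Prop :=
  (∀ s : ℂ, m {s} = 0) ∧
  ∀ R : ℝ, m (ball (0:ℂ) R) ≠ ⊤ ∧ ∃ C : ℝ≥0, ∀ s : ℂ,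
    ∫⁻ t in ball (0:ℂ) R, ENNReal.ofReal (Real.posLog ‖t - s‖⁻¹) ∂m ≤ C

/-- **Generic reductive nuclear perturbations of generalized scalar operators of order less than one
are normal.** Let `0 ≤ α < 1`, `N` an operator on the Hilbert space `H` with a bounded functional
calculus of Hölder class `α` on a compact set, and let `S` be nuclear of order `s`, `s (1 + α) < 1`.
For almost every `t`, with respect to every atomless measure with bounded logarithmic potential, in
particular for almost every complex and for almost every real `t`: if `N + t S` is reductive, then it is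
normal, and the same holds for its restriction to each reducing subspace. -/
theorem result (H : Type) [NormedAddCommGroup H] [InnerProductSpace ℂ H] [CompleteSpace H]
    (K : Set ℂ) (α : ℝ) (hα : 0 ≤ α) (hα1 : α < 1)
    (Φ : Smooth →ₐ[ℂ] (H →L[ℂ] H)) (N : H →L[ℂ] H) (hN : IsHolderCalculus K α Φ N)
    (s : ℝ) (hs : 0 < s) (hsα : s * (1 + α) < 1) (S : H →L[ℂ] H) (hS : NuclearOfOrder s S) :
    (∀ (m : Measure ℂ) [SFinite m], BoundedPotential m →
      ∀ᵐ t ∂m, Good (N + t • S)) ∧
    (∀ᵐ t : ℂ, Good (N + t • S)) ∧
    (∀ᵐ t : ℝ, Good (N + (t : ℂ) • S)) := by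
  obtain ⟨M, hM0, hM⟩ := hN.bounded
  obtain ⟨u, f, hsum, hSx⟩ := hS
  have hF : Pool.Agent.K4H47.GS.HC K α M Φ N := ⟨hN.compact, hM0, hN.identity, hM⟩
  have main : ∀ (m : Measure ℂ) [SFinite m], Pool.Agent.Y283.NK.LogBd m →
      ∀ᵐ t ∂m, Good (N + t • S) := by
    intro m _ hm
    filter_upwards [Pool.Agent.K4H47.RG.main hF hα hα1 hs hsα hsum hSx m hm] with t ht
    refine ⟨fun h => ?_, fun V h1 h2 => ht V ⟨h1.1, h1.2.1, h1.2.2, h2⟩⟩
    have h3 := ht ⊤ ⟨isClosed_univ, fun _ _ => trivial, fun _ _ => trivial, h⟩
    constructor
    rw [Commute, SemiconjBy, ContinuousLinearMap.star_eq_adjoint]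
    ext1 x
    exact h3 x trivial
  refine ⟨?_, ?_, ?_⟩
  · intro m _ hm
    refine main m fun R => ?_
    obtain ⟨h0, hm⟩ := hm
    obtain ⟨h1, C, hC⟩ := hm R
    refine ⟨C + (m (ball (0:ℂ) R)).toNNReal, ?_, fun s => ?_⟩
    · rw [ENNReal.coe_add, ENNReal.coe_toNNReal h1]
      exact le_add_self
    · calc ∫⁻ t in ball (0:ℂ) R, Pool.Agent.Y283.NK.lm ‖t - s‖ ∂m
          = ∫⁻ t in ball (0:ℂ) R, ENNReal.ofReal (Real.posLog ‖t - s‖⁻¹) ∂m := by
            refine lintegral_congr_ae (ae_restrict_of_ae ?_)
            have h2 : ∀ᵐ t ∂m, t ≠ s := by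
              rw [ae_iff]
              simpa using h0 s
            filter_upwards [h2] with t ht
            unfold Pool.Agent.Y283.NK.lm
            rw [if_neg (by simpa [sub_eq_zero] using ht)]
        _ ≤ C := hC s
        _ ≤ _ := by rw [ENNReal.coe_add]; exact le_self_add
  · exact main volume Pool.Agent.Y891.NK.main_vol.1
  · have h := main (Measure.map (fun t : ℝ => (t : ℂ)) volume) Pool.Agent.Y891.NK.main_vol.2
    exact ae_of_ae_map Complex.continuous_ofReal.measurable.aemeasurable h

end Pool.Agent.Results.MP_49c4d9_an.HolderScalarReductive
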