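import Pool.Agent.K4H47.HS.RedP

/-!
# MP_49c4d9_an: reductive Hilbert-Schmidt perturbations of normal operators

Let `N` be a normal operator on a separable complex Hilbert space and `K` a Hilbert-Schmidt operator.
No condition is put on `N` (its spectrum may have interior, its spectral measure may be anything) and
none on `K`. For every `t` outside a set which is null for all atomless measures with bounded
logarithmic potential, in particular for almost every complex and for almost every real `t`, the
operator `T = N + t K` is normal as soon as it is reductive, and more generally the restriction of `T`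
to a reducing subspace `V` is normal as soon as it is reductive.

The starting results have this for `K` of trace class (`ReductiveCouplings`) and, if the upper Minkowski
dimension of the spectrum of `N` is less than two, for `K` in `C_p` with `p < 2` (`SchattenReductive`).

Proof. For these `t` the operators `T = N + t K` and `T†` have integrated local resolvents: for every
vector `x`, every point `c` and every `ρ > 0` there are vectors `X a`, `W` and a number `k ≠ 0` with
`(T - c) X a = X (a + 1)`, `‖X a‖ ≤ C ρ^a` and `(c - T) W = X 0 + k x`. They are area integrals of a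
formal local resolvent against bounded functions built from outer functions on circles, and the
determinant `det (1 - (t F)⁴)` of the characteristic matrices `F` is controlled by the cut at the
distance of the singular value (see the hand-in `NormalPlusHilbertSchmidt` of MP_f981b0_an). This
property and the compactness of the self-commutator pass to reducing subspaces, and a reductive operator
with both properties is normal: otherwise there is a hyperinvariant, hence reducing, subspace on which
`T` is not scalar and has no nontrivial hyperinvariant subspace; if the spectrum of the restriction has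
two points, the vectors with small local spectra of it and its adjoint at different points annihilate
each other across the commutant; if it has one point, the restriction is a scalar plus a quasinilpotent
operator with compact self-commutator, which is compact, and Lomonosov's theorem applies
(`Pool.Agent.Y271.RN`, starting library).
-/

set_option autoImplicit false

open MeasureTheory Metric
open scoped InnerProductSpace ENNReal NNReal

namespace Pool.Agent.Results.MP_49c4d9_an.ReductiveHilbertSchmidt

section Defs

variable {H : Type} [NormedAddCommGroup H] [InnerProductSpace ℂ H]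

/-- Every closed invariant subspace of `T` which is contained in `V` is invariant under the adjoint.
For `V = ⊤` this says that `T` is reductive, for a reducing subspace `V` it says that the restriction
of `T` to `V` is reductive. -/
def ReductiveOn [CompleteSpace H] (T : H →L[ℂ] H) (V : Submodule ℂ H) : Prop :=
  ∀ W : Submodule ℂ H, W ≤ V → IsClosed (W : Set H) → (∀ x ∈ W, T x ∈ W) →
    ∀ x ∈ W, ContinuousLinearMap.adjoint T x ∈ W

/-- `T` and its adjoint commute on `V`. For `V = ⊤` this says that `T` is normal, for a reducing
subspace `V` it says that the restriction of `T` to `V` is normal. -/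
def NormalOn [CompleteSpace H] (T : H →L[ℂ] H) (V : Submodule ℂ H) : Prop :=
  ∀ x ∈ V, ContinuousLinearMap.adjoint T (T x) = T (ContinuousLinearMap.adjoint T x)

/-- The subspace `V` is reducing for `T`: closed and invariant under `T` and its adjoint. -/
def Reducing [CompleteSpace H] (T : H →L[ℂ] H) (V : Submodule ℂ H) : Prop :=
  IsClosed (V : Set H) ∧ (∀ x ∈ V, T x ∈ V) ∧ ∀ x ∈ V, ContinuousLinearMap.adjoint T x ∈ V

/-- If `T` is reductive then it is normal; and the same holds for the restriction of `T` to each
reducing subspace. -/
def Good [CompleteSpace H] (T : H →L[ℂ] H) : Prop :=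
  (ReductiveOn T ⊤ → IsStarNormal T) ∧
    ∀ V : Submodule ℂ H, Reducing T V → ReductiveOn T V → NormalOn T V

/-- `K` is a Hilbert-Schmidt operator: `∑ ‖K (b i)‖² < ∞` for some Hilbert basis `b`. -/
def HilbertSchmidt (K : H →L[ℂ] H) : Prop :=
  ∃ (ι : Type) (b : HilbertBasis ι ℂ H), Summable fun i => ‖K (b i)‖ ^ 2

end Defs

/-- The measure `m` has no atoms, and on every disc `|t| < R` it is finite and
`∫ log⁺ (1 / |t - s|) dm(t)` is bounded in `s ∈ ℂ`. -/
def BoundedPotential (m : Measure ℂ) : Prop :=
  (∀ s : ℂ, m {s} = 0) ∧
  ∀ R : ℝ, m (ball (0:ℂ) R) ≠ ⊤ ∧ ∃ C : ℝ≥0, ∀ s : ℂ,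
    ∫⁻ t in ball (0:ℂ) R, ENNReal.ofReal (Real.posLog ‖t - s‖⁻¹) ∂m ≤ C

/-- **Generic reductive Hilbert-Schmidt perturbations of normal operators are normal.** Let `N` be
normal and `K` Hilbert-Schmidt on a separable Hilbert space. For almost every `t`, with respect to
every atomless measure with bounded logarithmic potential, in particular for almost every complex and
for almost every real `t`: if `N + t K` is reductive, then it is normal, and the same holds for its
restriction to each reducing subspace. -/
theorem result (H : Type) [NormedAddCommGroup H] [InnerProductSpace ℂ H] [CompleteSpace H]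
    [TopologicalSpace.SeparableSpace H] (N K : H →L[ℂ] H) (hN : IsStarNormal N)
    (hK : HilbertSchmidt K) :
    (∀ (m : Measure ℂ) [SFinite m], BoundedPotential m →
      ∀ᵐ t ∂m, Good (N + t • K)) ∧
    (∀ᵐ t : ℂ, Good (N + t • K)) ∧
    (∀ᵐ t : ℝ, Good (N + (t : ℂ) • K)) := by
  obtain ⟨ι, b, hb⟩ := hK
  obtain ⟨u, v, l, L, hR⟩ := Pool.Agent.K4H47.HS.exists_hsr K b hb
  have main : ∀ (m : Measure ℂ) [SFinite m], Pool.Agent.Y283.NK.LogBd m →
      ∀ᵐ t ∂m, Good (N + t • K) := by
    intro m _ hm
    filter_upwards [Pool.Agent.K4H47.HS.couplings3 H N K hN u v l L hR m hm] with t ht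
    refine ⟨fun h => ?_, fun V h1 h2 => ht V h1.1 h1.2.1 h1.2.2 h2⟩
    have h3 := ht ⊤ isClosed_univ (fun _ _ => trivial) (fun _ _ => trivial) h
    constructor
    rw [Commute, SemiconjBy, ContinuousLinearMap.star_eq_adjoint]
    ext1 x
    exact h3 x trivial
  refine ⟨?_, ?_, ?_⟩
  · intro m _ hm
    refine main m fun R => ?_
    obtain ⟨h0, hm⟩ := hm
    obtain ⟨h1, C, hC⟩ := hm R
    refine ⟨C + (m (ball (0:ℂ) R)).toNNReal, ?_, fun s => ?_⟩
    · rw [ENNReal.coe_add, ENNReal.coe_toNNReal h1]
      exact le_add_self
    · calc ∫⁻ t in ball (0:ℂ) R, Pool.Agent.Y283.NK.lm ‖t - s‖ ∂m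
          = ∫⁻ t in ball (0:ℂ) R, ENNReal.ofReal (Real.posLog ‖t - s‖⁻¹) ∂m := by
            refine lintegral_congr_ae (ae_restrict_of_ae ?_)
            have h2 : ∀ᵐ t ∂m, t ≠ s := by
              rw [ae_iff]
              simpa using h0 s
            filter_upwards [h2] with t ht
            unfold Pool.Agent.Y283.NK.lm
            rw [if_neg (by simpa [sub_eq_zero] using ht)]
        _ ≤ C := hC s
        _ ≤ _ := by rw [ENNReal.coe_add]; exact le_self_add
  · exact main volume Pool.Agent.Y891.NK.main_vol.1
  · have h := main (Measure.map (fun t : ℝ => (t : ℂ)) volume) Pool.Agent.Y891.NK.main_vol.2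
    exact ae_of_ae_map Complex.continuous_ofReal.measurable.aemeasurable h

end Pool.Agent.Results.MP_49c4d9_an.ReductiveHilbertSchmidt
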