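import Pool.Agent.K4H63.RD.BA

/-!
# MP_49c4d9_an: reductive operators with a polynomial similar to a restriction of `N + K` are normal

Let `T` be a reductive operator on a complex Hilbert space `H` and `q` a nonconstant polynomial. Suppose
that `q(T)` is similar to the restriction of `N + K` to an invariant subspace, where `N` is a normal
operator whose spectrum lies on a rectifiable curve (a Lipschitz image of `[0,1]`, self-intersections
allowed) and `K` is in a Schatten class `C_p`, `p < ∞`; or where `N` is normal with countable spectrum and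
`K` is any compact operator. Then `T` is normal. In terms of the similarity: there is an operator `J : H → G`,
bounded below, with `N J - J q(T)` in a Schatten class (or compact). Nothing is supposed about the
self-commutator of `T` or of `q(T)`. In part (3) `N` is replaced by an operator `S` with spectrum on the curve
and resolvent of polynomial growth at the curve; here `T* T - T T*` has to be compact.

Contained are polynomially compact operators (`N = 0`, `J = 1`, second case), the theorem of Nordgren,
Radjavi and Rosenthal on `T - T*` and `1 - T* T` in `C_p` (the curve is a segment or a circle), the starting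
result `ReductiveRectifiable` (`q(T) = T`, `J` the identity), and operators similar to normal
operators with spectrum on a curve. New are, for instance
* `T = X (N + K) X⁻¹`, `X` invertible: here the self-commutator of `T` need not be compact;
* `T² = N + K` and other operators of which a polynomial is of the form `N + K`;
* restrictions of `N + K` to closed invariant subspaces, Schatten class perturbations of
  subnormal operators, and of compressions `P N P` with `(1 - P) N P` in a Schatten class.

Proof. (a) `T` is normal on the span of its eigenvectors; let it have no eigenvalues. The hyperinvariant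
subspaces reduce `T` and their complements are hyperinvariant. (b) For hyperinvariant `V` the restriction
`q(T)|V` is similar to a restriction of `N + K`, and these are scalar or have nontrivial hyperinvariant
subspaces: this is the separation theorem of project HI (starting library) if one can bound the resolvent
of the restriction outside cones at the curve; as the spectrum of `N + K` may contain components of the
complement of the curve, where the perturbation determinant vanishes, this needs corrections of finite rank
by Schur complements, area averages of `log |det|` and quotients of two functions in sectors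
(`K4H63.RC.growth`, `K4H63.RC.normal_hyp`). One point in the spectrum: Lomonosov's theorem. Countable
spectrum: two circles. (c) (`keyC`) By a minimal dimension argument no compact operator except `0`
leaves all hyperinvariant subspaces of `T` invariant. (d) (`norm_le_ess`) So the norm of every operator `B`
in the bicommutant of `T` is its essential norm: otherwise the largest spectral value of `B* B` would be
an eigenvalue of finite multiplicity, and the eigenprojection a compact operator as in (c). (e)
(`calculus`) The functions `f` for which there is `B` in the bicommutant of `T` with `f(N) J - J B`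
compact form a closed algebra, because `‖B‖ ≤ C ‖f‖` by (d). It contains the functions `1 / (z - ζ)`, `z`
off the curve, hence, as the curve is a null set (Hartogs and Rosenthal), all continuous functions. This gives
a bounded functional calculus `C(σ(N)) → {T}''` of `q(T)`, although `N` and `T` act on different
spaces. (f) (`sc_zero`) With a partition of unity of mesh `ε` the space is a finite orthogonal sum of
hyperinvariant subspaces on which `q(T)` is within `C ε` of a scalar; so `q(T)` is normal. (g)
(`normal_of_poly`) Near a value which is not critical for `q` there are continuous branches `φ_i` of the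
inverse of `q`, the operators `R_i = φ_i(q(T))` are normal and commute with `T` and `∏ (T - R_i) = 0`
there, `T = R_i` and `T* = R_i*` on the kernel of `T - R_i`, and these kernels span. Hence
`(T* T - T T*) f(q(T)) = 0` for all continuous `f` vanishing at the critical values, and `T` is normal.
-/

set_option autoImplicit false

open Polynomial Metric

namespace Pool.Agent.Results.MP_49c4d9_an.ReductivePolynomialSimilar

/-- `T` is reductive: every closed invariant subspace of `T` is invariant under the adjoint. -/
def Reductive {H : Type} [NormedAddCommGroup H] [InnerProductSpace ℂ H] [CompleteSpace H]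
    (T : H →L[ℂ] H) : Prop :=
  ∀ V : Submodule ℂ H, IsClosed (V : Set H) → (∀ x ∈ V, T x ∈ V) →
    ∀ x ∈ V, ContinuousLinearMap.adjoint T x ∈ V

section Defs

variable {H G : Type} [NormedAddCommGroup H] [InnerProductSpace ℂ H]
  [NormedAddCommGroup G] [InnerProductSpace ℂ G]

/-- The distance in operator norm from `D` to the operators of rank at most `m` (the singular
number `s_{m+1}(D)`). -/
noncomputable def approxNumber (D : H →L[ℂ] G) (m : ℕ) : ℝ :=
  sInf {r : ℝ | ∃ F : H →L[ℂ] G, FiniteDimensional ℂ (LinearMap.range (F : H →ₗ[ℂ] G)) ∧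
    Module.finrank ℂ (LinearMap.range (F : H →ₗ[ℂ] G)) ≤ m ∧ r = ‖D - F‖}

/-- `D` is in the Schatten class `C_p` for some finite `p > 0`. -/
def InSchatten (D : H →L[ℂ] G) : Prop :=
  ∃ p : ℝ, 0 < p ∧ Summable fun m : ℕ => approxNumber D m ^ p

/-- `J` is bounded below: a linear homeomorphism onto a closed subspace. -/
def BoundedBelow (J : H →L[ℂ] G) : Prop :=
  ∃ c : ℝ, 0 < c ∧ ∀ x, c * ‖x‖ ≤ ‖J x‖

end Defs

/-- `Γ` is a rectifiable curve: the image of `[0,1]` under a Lipschitz map. -/
def RectifiableCurve (Γ : Set ℂ) : Prop :=
  ∃ (γ : ℝ → ℂ) (L : NNReal), LipschitzWith L γ ∧ Γ = γ '' Set.Icc 0 1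

/-- The resolvent of `S` exists off `Γ` and grows at most polynomially at `Γ`. -/
def PolyGrowth {G : Type} [NormedAddCommGroup G] [InnerProductSpace ℂ G] (S : G →L[ℂ] G)
    (Γ : Set ℂ) : Prop :=
  (∀ z, z ∉ Γ → z ∈ resolventSet ℂ S) ∧
    ∃ (C : ℝ) (k : ℕ), ∀ z, z ∉ Γ → infDist z Γ ≤ 1 → ‖resolvent S z‖ ≤ C / infDist z Γ ^ k

section aux

variable {H : Type} [NormedAddCommGroup H] [InnerProductSpace ℂ H]
variable {G : Type} [NormedAddCommGroup G] [InnerProductSpace ℂ G]

theorem bdd (K : H →L[ℂ] G) (m : ℕ) :
    BddBelow {r : ℝ | ∃ F : H →L[ℂ] G, FiniteDimensional ℂ (LinearMap.range (F : H →ₗ[ℂ] G)) ∧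
      Module.finrank ℂ (LinearMap.range (F : H →ₗ[ℂ] G)) ≤ m ∧ r = ‖K - F‖} := by
  refine ⟨0, ?_⟩
  rintro r ⟨F, -, -, rfl⟩
  exact norm_nonneg _

theorem ne (K : H →L[ℂ] G) (m : ℕ) :
    {r : ℝ | ∃ F : H →L[ℂ] G, FiniteDimensional ℂ (LinearMap.range (F : H →ₗ[ℂ] G)) ∧
      Module.finrank ℂ (LinearMap.range (F : H →ₗ[ℂ] G)) ≤ m ∧ r = ‖K - F‖}.Nonempty := by
  have h0 : LinearMap.range ((0 : H →L[ℂ] G) : H →ₗ[ℂ] G) = ⊥ := LinearMap.range_zero
  refine ⟨‖K - 0‖, 0, ?_, ?_, rfl⟩
  · rw [h0]; infer_instance
  · rw [h0]; simp

theorem approx_nonneg (K : H →L[ℂ] G) (m : ℕ) : 0 ≤ approxNumber K m := by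
  refine le_csInf (ne K m) ?_
  rintro r ⟨F, -, -, rfl⟩
  exact norm_nonneg _

theorem approx_anti (K : H →L[ℂ] G) {m n : ℕ} (h : m ≤ n) :
    approxNumber K n ≤ approxNumber K m := by
  refine csInf_le_csInf (bdd K n) (ne K m) ?_
  rintro r ⟨F, h1, h2, rfl⟩
  exact ⟨F, h1, h2.trans h, rfl⟩

theorem decay_of_summable {K : H →L[ℂ] G} (h : InSchatten K) :
    ∃ C ε : ℝ, 0 < ε ∧ ∀ m : ℕ, 1 ≤ m → approxNumber K m ≤ C / (m : ℝ) ^ ε := by
  obtain ⟨p, hp, hs⟩ := h
  set S : ℝ := ∑' m : ℕ, approxNumber K m ^ p with hS
  have hS0 : 0 ≤ S := tsum_nonneg fun m => Real.rpow_nonneg (approx_nonneg K m) _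
  refine ⟨S ^ (1 / p), 1 / p, by positivity, fun m hm => ?_⟩
  have hm0 : (0 : ℝ) < m := by exact_mod_cast hm
  have h1 : (m : ℝ) * approxNumber K m ^ p ≤ S := by
    calc (m : ℝ) * approxNumber K m ^ p = ∑ _i ∈ Finset.range m, approxNumber K m ^ p := by simp
      _ ≤ ∑ i ∈ Finset.range m, approxNumber K i ^ p := by
          refine Finset.sum_le_sum fun i hi => ?_
          exact Real.rpow_le_rpow (approx_nonneg K m) (approx_anti K (Finset.mem_range.1 hi).le) hp.le
      _ ≤ S := hs.sum_le_tsum _ fun i _ => Real.rpow_nonneg (approx_nonneg K i) _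
  have h2 : approxNumber K m ^ p ≤ S / m := by
    rw [le_div_iff₀ hm0]
    linarith
  have h3 : (approxNumber K m ^ p) ^ (1 / p) ≤ (S / m) ^ (1 / p) :=
    Real.rpow_le_rpow (Real.rpow_nonneg (approx_nonneg K m) _) h2 (by positivity)
  rw [← Real.rpow_mul (approx_nonneg K m), mul_one_div_cancel hp.ne', Real.rpow_one,
    Real.div_rpow hS0 hm0.le] at h3
  exact h3

theorem decay {D : H →L[ℂ] G} (h : InSchatten D) :
    ∃ C ε : ℝ, 0 < ε ∧ ∀ m : ℕ, 1 ≤ m → ∃ F : H →L[ℂ] G,
      FiniteDimensional ℂ (LinearMap.range (F : H →ₗ[ℂ] G)) ∧
      Module.finrank ℂ (LinearMap.range (F : H →ₗ[ℂ] G)) ≤ m ∧ ‖D - F‖ ≤ C / (m : ℝ) ^ ε := by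
  obtain ⟨C, ε, hε, h⟩ := decay_of_summable h
  refine ⟨C + 1, ε, hε, fun m hm => ?_⟩
  have hm0 : (0 : ℝ) < m := by exact_mod_cast hm
  have h1 : approxNumber D m < (C + 1) / (m : ℝ) ^ ε := by
    refine (h m hm).trans_lt ?_
    have : (0 : ℝ) < (m : ℝ) ^ ε := by positivity
    gcongr
    linarith
  obtain ⟨r, ⟨F, hF1, hF2, rfl⟩, hr⟩ := exists_lt_of_csInf_lt (ne D m) h1
  exact ⟨F, hF1, hF2, hr.le⟩

end aux

/-- **Theorem.** Let `T` be a reductive operator on the Hilbert space `H`, `q` a nonconstant polynomial,
`G` a Hilbert space and `J : H → G` bounded below. (1) If `N J - J q(T)` is in a Schatten class for a normal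
operator `N` on `G` with spectrum on a rectifiable curve, then `T` is normal. (2) If `N J - J q(T)` is
compact for a normal operator `N` on `G` with countable spectrum, then `T` is normal. (3) If `S J - J q(T)` is in a
Schatten class for an operator `S` on `G` with spectrum on a rectifiable curve and resolvent of polynomial
growth at the curve, and `T* T - T T*` is compact, then `T` is normal. -/
theorem result (H G : Type) [NormedAddCommGroup H] [InnerProductSpace ℂ H] [CompleteSpace H]
    [NormedAddCommGroup G] [InnerProductSpace ℂ G] [CompleteSpace G]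
    (T : H →L[ℂ] H) (hT : Reductive T) (q : ℂ[X]) (hq : 0 < q.natDegree)
    (J : H →L[ℂ] G) (hJ : BoundedBelow J) :
    (∀ (N : G →L[ℂ] G) (Γ : Set ℂ), IsStarNormal N → RectifiableCurve Γ → spectrum ℂ N ⊆ Γ →
      InSchatten (N.comp J - J.comp (aeval T q)) → IsStarNormal T) ∧
    (∀ N : G →L[ℂ] G, IsStarNormal N → (spectrum ℂ N).Countable →
      IsCompactOperator (N.comp J - J.comp (aeval T q) : H →L[ℂ] G) → IsStarNormal T) ∧
    (∀ (S : G →L[ℂ] G) (Γ : Set ℂ), RectifiableCurve Γ → PolyGrowth S Γ →
      InSchatten (S.comp J - J.comp (aeval T q)) →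
      IsCompactOperator (ContinuousLinearMap.adjoint T * T - T * ContinuousLinearMap.adjoint T :
        H →L[ℂ] H) → IsStarNormal T) := by
  refine ⟨?_, ?_, ?_⟩
  · rintro N Γ hN ⟨γ, L, hγ, rfl⟩ hs hD
    exact Pool.Agent.K4H63.RD.final_curve hN hγ hs hT hq hJ (decay hD)
  · intro N hN hc hD
    exact Pool.Agent.K4H63.RD.final_countable hN hc hT hq hJ hD
  · rintro S Γ ⟨γ, L, hγ, rfl⟩ hS hD hsc
    exact Pool.Agent.K4H63.RD.final_growth hγ hS.1 hS.2 hT hq hJ (decay hD) hsc

end Pool.Agent.Results.MP_49c4d9_an.ReductivePolynomialSimilar
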