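import Pool.Agent.K4H63.RD.B9
import Pool.Agent.R276.CP.Fin
import Pool.Agent.R276.CP.Up
import Pool.Agent.R276.CP.Rs
import Pool.Agent.R276.CP.Pot
import Pool.Agent.R276.CP.Loc
import Pool.Agent.R276.CP.Fat
import Pool.Agent.R276.CP.Sec
import Pool.Agent.R276.CP.Had

/-!
# MP_49c4d9_an: reductive operators essentially similar to restrictions of normal operators

Let `T` be a reductive operator on a complex Hilbert space `H`, `q` a nonconstant polynomial, `N` a normal
operator on a Hilbert space `G` whose spectrum is a null set of the plane, and `J : H → G` bounded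
below with `N J - J q(T)` compact: modulo the compact operators `q(T)` is similar to a restriction of a
normal operator to an invariant subspace.

(1) If the restriction of `T` to each hyperinvariant subspace on which its spectrum has at least two points has a
nontrivial hyperinvariant subspace, then `T` is normal. So for these operators the reductive operator
problem is reduced to the hyperinvariant subspace problem for restrictions of `T`. (Dyer and Porcelli reduced
the reductive operator problem for all operators to the invariant subspace problem for all operators; their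
direct integrals do not stay in a class like this one.)

(2) If the spectrum of `q(T)` is a null set and `log⁺ ‖(z - q(T))⁻¹‖` is integrable near it, then `T` is
normal. The starting result `ReductiveLogIntegrable` is the case `q(T) = T`, `T* T - T T*` compact. (By the
theorem of Brown, Douglas and Fillmore such `T` satisfy the present hypothesis, with an isometry `J`.)

(3) Let `N` be normal on `G`, with spectrum of upper Minkowski dimension less than two, and `K` in `C_p`,
`p < 2`. For almost every `κ` the operator `C = N + κ K` has the following property: if `T` is a reductive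
operator on any Hilbert space, `q` a nonconstant polynomial and `q(T)` is similar to the restriction of `C`
to a closed invariant subspace, then `T` is normal. The starting result `SchattenReductive` has only `T = C`.

In none of the three parts is anything supposed about the self-commutators of `T` or `q(T)`, which need
not be compact a priori.

Proof. On the part `M` of `H` without eigenvectors of `T` no compact operator except `0` leaves all
hyperinvariant subspaces of `T` invariant (minimal dimension argument), so the norm of each operator in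
the bicommutant of `T` is its essential norm; this and the theorem of Hartogs and Rosenthal give a bounded
functional calculus of `q(T)` on `M` with all continuous functions on the spectrum of `N` and values in
the bicommutant of `T`. As `T` is reductive, partitions of unity give orthogonal decompositions, `q(T)` is
normal, and `T` is normal (Fuglede's theorem, local branches of the inverse of `q`). See
`Pool.Agent.K4H63.RD` and the hand-in `ReductivePolynomialSimilar`, where the hypothesis in (1) is proved
for Schatten class perturbations and spectra on rectifiable curves. In (2) and (3) the hypothesis in (1) follows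
from `W610.HY` (starting library), for one point in the spectrum from Lomonosov's theorem; for (3) one also needs
that a restriction of `C` is bounded below, not onto, or has an eigenvalue at the points of its
spectrum off the spectrum of `N`, and that elsewhere its resolvent is the restriction of the resolvent of `C`, which
is locally log-integrable for almost all `κ` (`R276.CP`).
-/

set_option autoImplicit false

open MeasureTheory Metric Polynomial
open scoped ENNReal NNReal

namespace Pool.Agent.Results.MP_49c4d9_an.ReductivePrinciple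

section Defs

variable {H : Type} [NormedAddCommGroup H] [InnerProductSpace ℂ H]
variable {G : Type} [NormedAddCommGroup G] [InnerProductSpace ℂ G]

/-- `T` is reductive: every closed invariant subspace of `T` is invariant under the adjoint. -/
def Reductive [CompleteSpace H] (T : H →L[ℂ] H) : Prop :=
  ∀ V : Submodule ℂ H, IsClosed (V : Set H) → (∀ x ∈ V, T x ∈ V) →
    ∀ x ∈ V, ContinuousLinearMap.adjoint T x ∈ V

/-- The closed subspace `V` is hyperinvariant for `T`: invariant under all operators commuting
with `T`. -/
def Hyperinvariant (T : H →L[ℂ] H) (V : Submodule ℂ H) : Prop :=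
  IsClosed (V : Set H) ∧ ∀ Q : H →L[ℂ] H, Q * T = T * Q → ∀ x ∈ V, Q x ∈ V

/-- `T` has a hyperinvariant subspace different from `{0}` and the whole space. -/
def HasHyperinvariant (T : H →L[ℂ] H) : Prop :=
  ∃ V : Submodule ℂ H, Hyperinvariant T V ∧ V ≠ ⊥ ∧ V ≠ ⊤

/-- `J` is bounded below: a linear homeomorphism onto a closed subspace. -/
def BoundedBelow (J : H →L[ℂ] G) : Prop :=
  ∃ c : ℝ, 0 < c ∧ ∀ x, c * ‖x‖ ≤ ‖J x‖

/-- `K` is in the Schatten class `C_p`, `0 < p ≤ 2`: for some orthonormal basis `b` the sum of
the numbers `‖K b_i‖ ^ p` is finite. -/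
def Schatten (K : H →L[ℂ] H) (p : ℝ) : Prop :=
  ∃ (ι : Type) (b : HilbertBasis ι ℂ H), Summable fun i => ‖K (b i)‖ ^ p

/-- Every reductive operator `T` on a Hilbert space, such that a nonconstant polynomial of `T` is similar
to the restriction of `C` to a closed invariant subspace, is normal. -/
def Good [CompleteSpace G] (C : G →L[ℂ] G) : Prop :=
  ∀ (H : Type) [NormedAddCommGroup H] [InnerProductSpace ℂ H] [CompleteSpace H]
    (T : H →L[ℂ] H) (q : ℂ[X]) (J : H →L[ℂ] G), Reductive T → 0 < q.natDegree → BoundedBelow J →
    C.comp J = J.comp (aeval T q) → IsStarNormal T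

end Defs

/-- the upper Minkowski dimension of `E` is less than two: the closed `δ`-neighbourhood of `E` has area
at most `C δ^ε` for `0 < δ ≤ 1` -/
def Thin (E : Set ℂ) : Prop :=
  ∃ C ε : ℝ, 0 < ε ∧ ∀ δ : ℝ, 0 < δ → δ ≤ 1 →
    volume {z : ℂ | infDist z E ≤ δ} ≤ ENNReal.ofReal (C * δ ^ ε)

/-- The measure `m` has no atoms, and on every disc `|t| < R` it is finite and
`∫ log⁺ (1 / |t - s|) dm(t)` is bounded in `s ∈ ℂ`. -/
def BoundedPotential (m : Measure ℂ) : Prop :=
  (∀ s : ℂ, m {s} = 0) ∧
  ∀ R : ℝ, m (ball (0:ℂ) R) ≠ ⊤ ∧ ∃ C : ℝ≥0, ∀ s : ℂ,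
    ∫⁻ t in ball (0:ℂ) R, ENNReal.ofReal (Real.posLog ‖t - s‖⁻¹) ∂m ≤ C

theorem thin_null {E : Set ℂ} (h : Thin E) : volume E = 0 := by
  obtain ⟨C, ε, hε, h⟩ := h
  have hlim : Filter.Tendsto (fun n : ℕ => ENNReal.ofReal (C * (1 / ((n : ℝ) + 1)) ^ ε))
      Filter.atTop (nhds 0) := by
    have h1 : Filter.Tendsto (fun n : ℕ => C * (1 / ((n : ℝ) + 1)) ^ ε) Filter.atTop (nhds 0) := by
      have h2 := (tendsto_one_div_add_atTop_nhds_zero_nat (𝕜 := ℝ)).rpow_const (p := ε)
        (Or.inr hε.le)
      rw [Real.zero_rpow hε.ne'] at h2
      simpa using h2.const_mul C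
    rw [← ENNReal.ofReal_zero]
    exact (ENNReal.continuous_ofReal.tendsto 0).comp h1
  refine le_antisymm (ge_of_tendsto' hlim fun n => ?_) zero_le'
  refine (measure_mono ?_).trans (h (1 / ((n : ℝ) + 1)) (by positivity) ?_)
  · intro z hz
    change infDist z E ≤ _
    rw [infDist_zero_of_mem hz]
    positivity
  · rw [div_le_one (by positivity)]
    have : (0 : ℝ) ≤ n := Nat.cast_nonneg n
    linarith

/-- Part (1): the reduction to hyperinvariant subspaces. -/
def PartOne : Prop :=
  ∀ (H G : Type) [NormedAddCommGroup H] [InnerProductSpace ℂ H] [CompleteSpace H]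
    [NormedAddCommGroup G] [InnerProductSpace ℂ G] [CompleteSpace G]
    (T : H →L[ℂ] H) (q : ℂ[X]) (N : G →L[ℂ] G) (J : H →L[ℂ] G),
    Reductive T → 0 < q.natDegree → IsStarNormal N → volume (spectrum ℂ N) = 0 →
    BoundedBelow J → IsCompactOperator (N.comp J - J.comp (aeval T q) : H →L[ℂ] G) →
    (∀ (V : Submodule ℂ H) (hV : ∀ x ∈ V, T x ∈ V), Hyperinvariant T V →
      (spectrum ℂ (T.restrict hV)).Nontrivial → HasHyperinvariant (T.restrict hV)) →
    IsStarNormal T

/-- Part (2): log-integrable resolvent. -/
def PartTwo : Prop :=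
  ∀ (H G : Type) [NormedAddCommGroup H] [InnerProductSpace ℂ H] [CompleteSpace H]
    [NormedAddCommGroup G] [InnerProductSpace ℂ G] [CompleteSpace G]
    (T : H →L[ℂ] H) (q : ℂ[X]) (N : G →L[ℂ] G) (J : H →L[ℂ] G) (U : Set ℂ),
    Reductive T → 0 < q.natDegree → IsStarNormal N → volume (spectrum ℂ N) = 0 →
    BoundedBelow J → IsCompactOperator (N.comp J - J.comp (aeval T q) : H →L[ℂ] G) →
    volume (spectrum ℂ (aeval T q)) = 0 → IsOpen U → spectrum ℂ (aeval T q) ⊆ U →
    IntegrableOn (fun z : ℂ => Real.posLog ‖resolvent (aeval T q) z‖) U →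
    IsStarNormal T

/-- Part (3): almost all couplings. -/
def PartThree : Prop :=
  ∀ (G : Type) [NormedAddCommGroup G] [InnerProductSpace ℂ G] [CompleteSpace G]
    (N K : G →L[ℂ] G) (p : ℝ), IsStarNormal N → Thin (spectrum ℂ N) → 0 < p → p < 2 →
    Schatten K p →
    (∀ m : Measure ℂ, BoundedPotential m → ∀ᵐ κ ∂m, Good (N + κ • K)) ∧
    (∀ᵐ κ : ℂ, Good (N + κ • K)) ∧
    (∀ᵐ κ : ℝ, Good (N + (κ : ℂ) • K))

theorem partThree : PartThree := by
  intro G _ _ _ N K p hN ht hp0 hp2 hK
  have main : ∀ m : Measure ℂ, Pool.Agent.R276.CP.LogBd m → ∀ᵐ κ ∂m, Good (N + κ • K) := by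
    intro m hm
    have hS : Pool.Agent.R276.CP.Sections K p :=
      Pool.Agent.R276.CP.Sec.main G K p hp0 hp2.le hK
    obtain ⟨hKc, -⟩ := Pool.Agent.R276.CP.Fin.compact_of_sections hS
    filter_upwards [Pool.Agent.R276.CP.Fin.ae_logInt
      (Pool.Agent.R276.CP.Fat.main (Pool.Agent.R276.CP.Up.main Pool.Agent.R276.CP.Had.main)
        (Pool.Agent.R276.CP.Rs.main Pool.Agent.R276.CP.Had.main) Pool.Agent.R276.CP.Pot.main)
      Pool.Agent.R276.CP.Sec.main Pool.Agent.R276.CP.Loc.main N K hN ht p hp0 hp2 hK m hm] with κ h
    have h0 : volume (spectrum ℂ (N + κ • K)) = 0 := by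
      have h1 : spectrum ℂ (N + κ • K) = ⋃ R : ℕ, spectrum ℂ (N + κ • K) ∩ ball 0 (R : ℝ) := by
        rw [← Set.inter_iUnion, iUnion_ball_nat, Set.inter_univ]
      rw [h1]
      exact measure_iUnion_null fun R => (h R).1
    have hI : ∀ R : ℝ, IntegrableOn (fun z : ℂ => Real.posLog ‖resolvent (N + κ • K) z‖)
        (ball 0 R) := by
      intro R
      obtain ⟨n, hn⟩ := exists_nat_gt R
      exact (h n).2.mono_set (ball_subset_ball hn.le)
    intro H _ _ _ T q J hT hq hJ hC
    exact Pool.Agent.K4H63.RD.final_log hN (hKc.smul κ) (thin_null ht) h0 hI hT hq hJ hC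
  refine ⟨?_, ?_, ?_⟩
  · intro m hm
    refine main m fun R => ?_
    obtain ⟨h0, hm⟩ := hm
    obtain ⟨h1, C, hC⟩ := hm R
    refine ⟨C + (m (ball (0:ℂ) R)).toNNReal, ?_, fun s => ?_⟩
    · rw [ENNReal.coe_add, ENNReal.coe_toNNReal h1]
      exact le_add_self
    · calc ∫⁻ t in ball (0:ℂ) R, Pool.Agent.R276.CP.lm ‖t - s‖ ∂m
          = ∫⁻ t in ball (0:ℂ) R, ENNReal.ofReal (Real.posLog ‖t - s‖⁻¹) ∂m := by
            refine lintegral_congr_ae (ae_restrict_of_ae ?_)
            have h2 : ∀ᵐ t ∂m, t ≠ s := by
              rw [ae_iff]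
              simpa using h0 s
            filter_upwards [h2] with t ht
            unfold Pool.Agent.R276.CP.lm
            rw [if_neg (by simpa [sub_eq_zero] using ht)]
        _ ≤ C := hC s
        _ ≤ _ := by rw [ENNReal.coe_add]; exact le_self_add
  · exact main volume Pool.Agent.Y891.NK.main_vol.1
  · have h := main (Measure.map (fun t : ℝ => (t : ℂ)) volume) Pool.Agent.Y891.NK.main_vol.2
    exact ae_of_ae_map Complex.continuous_ofReal.measurable.aemeasurable h

/-- **Theorem.** Let `T` be reductive, `q` a nonconstant polynomial, `N` normal with null spectrum, `J`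
bounded below and `N J - J q(T)` compact. (1) If all restrictions of `T` to hyperinvariant subspaces, whose
spectrum has more than one point, have nontrivial hyperinvariant subspaces, then `T` is normal. (2) If the
spectrum of `q(T)` is a null set and `log⁺ ‖(z - q(T))⁻¹‖` is integrable near it, then `T` is normal. (3)
If `N` is normal with spectrum of upper Minkowski dimension less than two and `K` in `C_p`, `p < 2`, then for
almost every `κ`: if `T` is reductive and `q(T)` similar to a restriction of `N + κ K` to an invariant
subspace, then `T` is normal. -/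
theorem result : PartOne ∧ PartTwo ∧ PartThree := by
  refine ⟨?_, ?_, partThree⟩
  · intro H G _ _ _ _ _ _ T q N J hT hq hN hN0 hJ hD hR
    refine Pool.Agent.K4H63.RD.final_principle hN hN0 hT hq hJ hD ?_
    intro V hV hnt
    obtain ⟨W, ⟨h1, h2⟩, h3, h4⟩ := hR V hV.inv ⟨hV.1, hV.2⟩ hnt
    exact Or.inr ⟨W, h1, h3, h4, h2⟩
  · intro H G _ _ _ _ _ _ T q N J U hT hq hN hN0 hJ hD h0 hU hsU hI
    exact Pool.Agent.K4H63.RD.final_log2 hN hN0 hT hq hJ hD h0 hU hsU hI

end Pool.Agent.Results.MP_49c4d9_an.ReductivePrinciple
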